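import Pool.Agent.TH117.BL.Main

/-!
# Tate classes on abelian varieties with elementary relations between the Frobenius eigenvalues

Over an algebraic closure of the field with `p` elements each abelian variety is isogenous to the
reduction of an abelian variety of CM type (Honda, Tate). So an abelian variety over the field with
`p ^ a` elements is modelled by a finite product `X` of CM types `(E i, Φ i)` with Weil numbers
`π i ∈ E i` that satisfy the formula of Shimura and Taniyama (`RedAV`); its first homology, with
coefficients in an algebraically closed field `Ω` (`ℓ`-adic homology, tensored with an algebraic
closure of `ℚ_ℓ`), is `Ω ⊗ H_1(X, ℚ)`, on which the Frobenius endomorphism acts by `π`.

Let `Z` be an abelian variety of any dimension over a finite field with `q` elements, with any Newton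
polygons. Suppose that the group of multiplicative relations between the Frobenius eigenvalues of `Z`,
the square root of `q` and roots of unity is generated by relations of the following kinds
(`HasElementaryRelations`):

* relations that involve at most two eigenvalues;
* Weil relations: the product of the eigenvalues `φ (π i)` of the factors in a set `S`, for the
  embeddings `φ` with a given restriction to an imaginary quadratic field `K` contained in the CM fields
  of these factors, is a power of the square root of `q` up to a root of unity, where the dimension of
  the product of the factors in `S` is three, four or five, or where it is six and `p` splits in `K`
  (`IsWeilRelation`);
* relations between the Frobenius eigenvalues of a product of factors of `Z` of dimension at most five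
  no two of which form an exceptional pair (`IsExceptionalPair`: two abelian surfaces, whose CM fields
  are not Galois over `ℚ` and have the same Galois closure, or an elliptic curve and a fourfold, such
  that the product of two non-conjugate Frobenius eigenvalues of the second factor is a Frobenius
  eigenvalue of the first one times a square root of `q`, up to a root of unity);
* relations between the Frobenius eigenvalues of a product of factors of `Z` of dimension at most
  three, such that any two of these factors whose CM fields have the same Galois closure over `ℚ` are
  isogenous, unless these CM fields are Galois over `ℚ` or one of the two factors is supersingular.

Let `Y` be any abelian variety that is isogenous, over an algebraic closure, to a product of powers of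
the factors of `Z` and of a supersingular abelian variety of any dimension
(`IsPowersTimesSupersingular`). Then all Tate classes on `Y`, over all finite extensions of the ground
field and in all degrees, belong to the smallest system of cohomology classes `Alg` that contains the
classes of degree zero, the Tate classes of degree two and the reductions of the split Weil classes of
imaginary quadratic fields on abelian fourfolds and sixfolds of CM type, and that is stable under
linear combinations, cup products, pull-backs along homomorphisms and push-forwards along
projections. The classes in `Alg` are algebraic by theorems of Tate and Markman.

For example `Y` may be any power of any abelian variety of dimension at most five without exceptional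
pairs of factors, or the product of such a power with a supersingular abelian variety, or a product
of powers of abelian varieties of this kind, of abelian varieties of any dimension with maximal
angle rank, and of abelian varieties of any dimension whose relations are generated by Weil relations as
above, if the angle ranks of these abelian varieties add up.
-/

namespace Pool.Agent.Results.MP_ee618e_ag.ElementaryRelations

open Pool.Agent.W495.TA Pool.Agent.W547.KB Pool.Agent.TH117.BL

/-- The relations between the Frobenius eigenvalues of `Z` are generated by elementary relations, and
`Y` is isogenous, over an algebraic closure, to a product of powers of the factors of `Z` and of a
supersingular abelian variety: the Tate classes `f` of degree `2 m` on `Y` over the extension of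
degree `s` of the ground field are in `Alg`. -/
theorem result (p : ℕ) [Fact p.Prime] (ν : PadicAlgCl p ≃+* ℂ) (Z : RedAV p ν)
    (hrel : HasElementaryRelations Z) (Ω : Type) [Field Ω] [IsAlgClosed Ω] [CharZero Ω]
    (Y : RedAV p ν) (hY : IsPowersTimesSupersingular Z Y) (s m : ℕ) (hs : 0 < s)
    (f : (TM Ω Y) [⋀^Fin (2 * m)]→ₗ[Ω] Ω) (hf : IsTateClass Ω Y s m f) :
    Alg Ω Y (Fin (2 * m)) f :=
  elementary Z hrel Ω Y hY s m hs f hf

end Pool.Agent.Results.MP_ee618e_ag.ElementaryRelations
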