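import Pool.Agent.TH5.ST.Meet

/-!
# Exact criterion for the splitting of Tate classes between groups of varieties

Let `X j` (`j` in a finite set `J`) be smooth projective varieties over finite fields of
characteristic `p` (for the problem: abelian varieties) and `V j` the dual of a cohomology group of
`X j`, or of a part of it, with coefficients extended to an algebraically closed field, `F j`
the transpose of the linear Frobenius.  Suppose that `F j` is semisimple and that its eigenvalues
are conjugates of one Weil number `π j`, `|π j| ^ 2 = p ^ a j`, in a CM field `K j` (which need not
be generated by `π j`, so there are no conditions on `π j` other than that the field is CM;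
supersingular ones are allowed).  The numbers `v j τ`, the `p`-adic valuations of `τ (π j)` for the
embeddings `τ` of `K j` into the algebraic closure of `ℚ_p`, are the slopes of Frobenius.

Let the indices be divided into groups, `γ : J → I`.  Multilinear forms in variables
`v k ∈ V (t k)` are the elements of the tensor products of cohomology groups, Künneth
components of products of the `X j`.  Such a form is a Tate form if some power `F ^ s` multiplies
it by `c ^ s`, where `c ^ 2` is the product of the `p ^ a (t k)` (a Tate class over a finite
extension; if the product of the `p ^ a (t k)` is not an even power of `p ` this is the usual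
definition with a half twist).

(A) All Tate forms, in any number of variables, are combinations of external products
of Tate forms, one for each group, **if and only if** the spaces of slope traces
`∑ j ∈ group i, ∑ τ, v j τ * τ (z j)` (`z j` in `K j` with `complexConj (z j) = - z j`) of the
groups `i` are linearly independent over `ℚ` in the algebraic closure of `ℚ_p`.

(B) In particular this is so if the fields `K j` of the group `i` are contained in a CM field `E i`
which is Galois over `ℚ` and the elements of `ℚ_p` which lie in two of the fields `E i`
(embedded in the closure of `ℚ_p`) are real, that is if the intersection of `ℚ_p` with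
the intersection of any two of them is totally real (the intersection itself is totally real, or
complex conjugation lies in its decomposition group at `p`).

`IsWeilIn`, `TraceSpace`, `TraceSpacesIndependent`, `IsTateForm`, `IsExternalProductOfTate`,
`TateSplits` are defined in `Pool/Agent/TH5/ST/SplitDefs.lean` and `MeetRealInQp` in
`Pool/Agent/TH5/ST/Meet.lean`.
-/

set_option autoImplicit false

namespace Pool.Agent.Results.MP_ee618e_ag.SplittingCriterion

open NumberField NumberField.IsCMField Pool.Agent.TH5.ST

theorem result (p : ℕ) [Fact p.Prime] {I J : Type} [Fintype I] [Fintype J] (K : J → Type)
    [∀ j, Field (K j)] [∀ j, NumberField (K j)] [∀ j, IsCMField (K j)] (a : J → ℕ)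
    (π : ∀ j, K j) (v : ∀ j, (K j →+* PadicAlgCl p) → ℚ)
    (hW : ∀ j, IsWeilIn p (a j) (π j) (v j)) (γ : J → I) :
    (TateSplits π (fun j => p ^ a j) γ ↔ TraceSpacesIndependent p K v γ) ∧
    ∀ (E : I → Type) [∀ i, Field (E i)] [∀ i, NumberField (E i)] [∀ i, IsCMField (E i)]
      (y : ∀ i, E i →+* PadicAlgCl p), (∀ i, IsGalois ℚ (E i)) →
      (∀ j, Nonempty (K j →+* E (γ j))) → MeetRealInQp p E y →
      TateSplits π (fun j => p ^ a j) γ := by
  have h1 := tateSplits_iff p K a π v hW γ
  refine ⟨h1, fun E _ _ _ y hG hE h2 => h1.2 ?_⟩
  exact independent_of_meetReal p E y K a π v hW γ hG hE h2

end Pool.Agent.Results.MP_ee618e_ag.SplittingCriterion
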