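import Mathlib
import Pool.Agent.H194R3.Weil.Main

/-!
# Tate classes in all degrees are generated by divisor classes and Weil classes

Let `A` be an abelian variety over the field with `p ^ m` elements, `V` its first cohomology group
(coefficients extended to an algebraically closed field `Ω`), `F` the Frobenius.  Suppose that the
eigenvalues of `F` are conjugates of finitely many numbers `π i`, all powers of which generate a CM
field `K i` of degree `2 * n i` (that is, `A` is isogenous to a product of powers of absolutely
simple abelian varieties `B i`), that the maximal real subfield of `K i` is pair-transitive (the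
automorphisms of the complex numbers act transitively on the unordered pairs of its embeddings; no
other condition on the Galois group of `K i`), and that `n i` is odd, or `n i - 1` is prime, or the
action is also transitive on the unordered triples.  Embeddings of `K i` and `K j`, for different
`i` and `j`, are supposed to be flipped (there is no such condition if there is only one field).

Then every Tate class on `A`, over any finite extension of the ground field and in any degree,
is a polynomial in

* Tate classes of degree two (over the ground field; classes of divisors by the theorem of Tate), and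
* Weil classes of degree `n i`, for the indices `i` for which `π i` is of Weil type (`WeilSlopes`):
  products of `n i` eigenvectors of `F` for the eigenvalues `σ (π i)`, where `σ` runs exactly once
  through the extensions to `K i` of one embedding of an imaginary quadratic subfield of `K i`
  (`weilClasses`); they are Tate classes over a finite extension of the ground field.

So the Tate conjecture, for all abelian varieties of this kind and in all codimensions, is reduced to
the algebraicity of the Weil classes, in codimension `n i / 2`, on the powers of the single factors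
`B i` of Weil type.
-/

set_option autoImplicit false

namespace Pool.Agent.Results.MP_ee618e_ag.WeilClassesGenerate

open Module NumberField Pool.Agent.H194R3.CM Pool.Agent.H194R3.Tate Pool.Agent.H194R3.Weil

theorem result (p : ℕ) [Fact p.Prime] {I : Type} [Finite I] (K : I → Type)
    [∀ i, Field (K i)] [∀ i, NumberField (K i)] [∀ i, IsCMField (K i)]
    (hpair : ∀ i, PairTransitive (maximalRealSubfield (K i)))
    (hdeg : ∀ i, Odd (finrank ℚ (maximalRealSubfield (K i))) ∨
      (finrank ℚ (maximalRealSubfield (K i)) - 1).Prime ∨
        TripleTransitive (maximalRealSubfield (K i)))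
    (hflip : ∀ x y : Σ i, (K i →+* ℂ), y.1 ≠ x.1 → Flipped x y)
    (m : ℕ) (π : ∀ i, K i) (hint : ∀ i, IsIntegral ℤ (π i))
    (hgen : ∀ i, ∀ s : ℕ, 0 < s → IntermediateField.adjoin ℚ {π i ^ s} = ⊤)
    (hweil : ∀ i, ∀ φ : K i →+* ℂ, ‖φ (π i)‖ ^ 2 = (p : ℝ) ^ m)
    {Ω : Type*} [Field Ω] [IsAlgClosed Ω] [CharZero Ω]
    {V : Type*} [AddCommGroup V] [Module Ω V] (F : V →ₗ[Ω] V)
    (hF : Submodule.span Ω {v : V | ∃ i, ∃ σ : K i →+* Ω, F v = σ (π i) • v} = ⊤)
    (r s : ℕ) (hs : 0 < s) (x : ExteriorAlgebra Ω V) (hx : x ∈ ⋀[Ω]^(2 * r) V)
    (hFx : ExteriorAlgebra.map (F ^ s) x = (((p : Ω) ^ m) ^ r) ^ s • x) :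
    x ∈ Algebra.adjoin Ω
      -- the Tate classes of degree two
      ({y : ExteriorAlgebra Ω V | y ∈ ⋀[Ω]^2 V ∧ ExteriorAlgebra.map F y = (p : Ω) ^ m • y} ∪
        -- the Weil classes of the factors of Weil type, which are Tate classes of degree `n i`
        {y | ∃ i, WeilSlopes p (π i) m ∧ y ∈ weilClasses (π i) F ∧
          y ∈ ⋀[Ω]^(finrank ℚ (maximalRealSubfield (K i))) V ∧ ∃ s' : ℕ, 0 < s' ∧
            ExteriorAlgebra.map (F ^ (2 * s')) y =
              (((p : Ω) ^ m) ^ finrank ℚ (maximalRealSubfield (K i))) ^ s' • y}) := by
  refine Pool.Agent.H194R3.Weil.main p m π hint hgen (fun i φ => ?_) hpair hdeg hflip F hF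
    r s hs x hx hFx
  rw [hweil i φ]
  push_cast
  rfl

end Pool.Agent.Results.MP_ee618e_ag.WeilClassesGenerate
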